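import Pool.Agent.H159.CPair.Final

/-!
# MP_1a2443_an: `(k, ℓ)` a complete Pick pair implies `(k, ℓ h)` a complete Pick pair

The proof. For a kernel `k` and a point `p` let `k^p(x,y) = k(x,y) - k(x,p)k(p,y)/k(p,p)`. Call a finite
set `S` good for `(k, ℓ)` and `p` if for all points `z_i ∈ S` (repetitions allowed) and all positive
semidefinite matrices `P`, `Q`

  `[ℓ(z_i,z_j) Q_ij - k(z_i,z_j) P_ij] ≥ 0` implies `[ℓ^p(z_i,z_j) Q_ij - k^p(z_i,z_j) P_ij] ≥ 0`.

By Parrott's theorem this says that tangential data `ℓ_{z_i} ⊗ ξ_i ↦ k_{z_i} ⊗ η_i` which define a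
contraction can be extended by any `ℓ_p ⊗ v ↦ k_p ⊗ u`. For a complete Pick pair every `S` is good for every
`p`, by induction on the number of points of `S`: by the induction hypothesis the tangential data on `S`
can be completed to matrices `W_q`, `q ∈ S`, the complete Pick property gives a contractive multiplier with
these values, and this gives the inequality at `p`. Finally, Pick data for `(k, ℓ h)` on a finite set are
tangential data for `(k, ℓ)`, with the vectors `a_x ⊗ e_r`, where `h(x,y) = ⟨a_y, a_x⟩`. So they can be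
extended to any finite set, and a compactness argument finishes the proof.
-/

set_option autoImplicit false

namespace Pool.Agent.Results.MP_1a2443_an.ProductKernel

open scoped ComplexConjugate ComplexOrder
open Matrix

universe u

variable {X : Type u}

/-- A kernel on `X`: all the matrices `[k(z_i, z_j)]` are positive semidefinite, and `k` does not vanish
on the diagonal. -/
def IsKernel (k : X → X → ℂ) : Prop :=
  (∀ (n : ℕ) (z : Fin n → X), (Matrix.of fun i j => k (z i) (z j)).PosSemidef) ∧
    ∀ x, k x x ≠ 0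

/-- The block matrix `[ℓ(z_i,z_j) I_N - k(z_i,z_j) W_i W_j*]`. -/
noncomputable def pickMatrix (k l : X → X → ℂ) {n N : ℕ} (z : Fin n → X)
    (W : Fin n → Matrix (Fin N) (Fin N) ℂ) : Matrix (Fin n × Fin N) (Fin n × Fin N) ℂ :=
  Matrix.of fun a b => l (z a.1) (z b.1) * (1 : Matrix (Fin N) (Fin N) ℂ) a.2 b.2 -
    k (z a.1) (z b.1) * (W a.1 * (W b.1)ᴴ) a.2 b.2

/-- `Φ : X → M_N` is a contractive multiplier from `H_k ⊗ ℂ^N` to `H_ℓ ⊗ ℂ^N`: the `M_N`-valued
function `ℓ(z,w) I_N - k(z,w) Φ(z) Φ(w)*` is a positive kernel. -/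
def IsContractiveMultiplier (k l : X → X → ℂ) {N : ℕ} (Φ : X → Matrix (Fin N) (Fin N) ℂ) : Prop :=
  ∀ (n : ℕ) (z : Fin n → X), (pickMatrix k l z fun i => Φ (z i)).PosSemidef

/-- `(k, ℓ)` is a complete Pick pair. -/
def IsCPPair (k l : X → X → ℂ) : Prop :=
  ∀ (n N : ℕ), 1 ≤ n → 1 ≤ N → ∀ (z : Fin n → X) (W : Fin n → Matrix (Fin N) (Fin N) ℂ),
    (pickMatrix k l z W).PosSemidef →
      ∃ Φ : X → Matrix (Fin N) (Fin N) ℂ, IsContractiveMultiplier k l Φ ∧ ∀ i, Φ (z i) = W i

open Pool.Agent.H159.CPair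

lemma IsKernel.ker {k : X → X → ℂ} (h : IsKernel k) : Ker k where
  herm x y := by
    have h1 := congrFun (congrFun (h.1 2 ![x, y]).1 1) 0
    simpa [Matrix.conjTranspose_apply] using h1
  pos x := by
    have h1 := (h.1 1 ![x]).diag_nonneg (i := 0)
    have h2 : 0 ≤ k x x := by simpa using h1
    have h3 : 0 < k x x := lt_of_le_of_ne h2 (h.2 x).symm
    exact (Complex.pos_iff.1 h3).1

lemma IsKernel.psd {k : X → X → ℂ} (h : IsKernel k) (T : Finset X) :
    (Matrix.of fun x y : T => k x.1 y.1).PosSemidef := by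
  have e := T.equivFin
  have h1 := (h.1 T.card fun i => (e.symm i).1).submatrix e
  have h2 : (Matrix.of fun i j => k (e.symm i).1 (e.symm j).1).submatrix e e =
      Matrix.of fun x y : T => k x.1 y.1 := by
    ext x y; simp
  rwa [h2] at h1

/-- **The answer to Q1 is yes**: if `(k, ℓ)` is a complete Pick pair of kernels on `X` and `h` is any
kernel on `X`, then `(k, ℓ h)` is a complete Pick pair. -/
theorem result {X : Type u} (k l h : X → X → ℂ) (hk : IsKernel k) (hl : IsKernel l)
    (hh : IsKernel h) (hkl : IsCPPair k l) : IsCPPair k (fun z w => l z w * h z w) := by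
  classical
  exact cp_mul hk.ker hl.ker hh.ker hh.psd hkl

end Pool.Agent.Results.MP_1a2443_an.ProductKernel
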